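import Pool.Agent.Helper98.DISC.GoalsC

/-!
# Packet DISC PGB: a convex polygon in general position is positively or negatively oriented
-/

open MeasureTheory Set Filter Topology

noncomputable section

namespace Pool.Agent.Helper83.DISC.PGB

open Pool.Agent.Helper98.DISC

/-- all the vertices are on the same side of each edge -/
theorem side {n : ℕ} [NeZero n] (x : Fin n → ℂ) (h : IsConvexPolygon x) (i : Fin n) :
    (∀ m, 0 ≤ cr (x i) (x (i + 1)) (x m)) ∨ ∀ m, cr (x i) (x (i + 1)) (x m) ≤ 0 := by
  obtain ⟨-, K, hKo, ⟨z0, hz0⟩, -, hKc, hfr⟩ := h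
  have hx : ∀ m, x m ∈ closure K := by
    intro m
    refine frontier_subset_closure ?_
    rw [hfr]
    exact mem_iUnion.2 ⟨m, left_mem_segment ℝ _ _⟩
  have hp : midpoint ℝ (x i) (x (i + 1)) ∈ frontier K := by
    rw [hfr]
    exact mem_iUnion.2 ⟨i, midpoint_mem_segment _ _⟩
  have hpK : midpoint ℝ (x i) (x (i + 1)) ∉ K := by
    rw [hKo.frontier_eq] at hp
    exact hp.2
  obtain ⟨l, hl⟩ := geometric_hahn_banach_open_point hKc hKo hpK
  have hcl : ∀ a ∈ closure K, l a ≤ l (midpoint ℝ (x i) (x (i + 1))) := by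
    intro a ha
    exact closure_minimal (fun a ha ↦ (hl a ha).le)
      (isClosed_le l.continuous continuous_const) ha
  have hlin : ∀ z : ℂ, l z = z.re * l 1 + z.im * l Complex.I := by
    intro z
    have hz : z = z.re • (1 : ℂ) + z.im • Complex.I := by
      apply Complex.ext <;> simp
    conv_lhs => rw [hz]
    rw [map_add, map_smul, map_smul, smul_eq_mul, smul_eq_mul]
  have hmid : l (midpoint ℝ (x i) (x (i + 1))) = (l (x i) + l (x (i + 1))) / 2 := by
    rw [midpoint_eq_smul_add, map_smul, map_add, smul_eq_mul, invOf_eq_inv]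
    ring
  have h1 := hcl _ (hx i)
  have h2 := hcl _ (hx (i + 1))
  have h3 : ∀ m, l (x m) ≤ l (x i) := by
    intro m
    have := hcl _ (hx m)
    linarith
  have h4 : l (x (i + 1)) = l (x i) := by linarith
  have hne : 0 < l 1 ^ 2 + l Complex.I ^ 2 := by
    by_contra hcon
    have ha : l 1 = 0 := by nlinarith [sq_nonneg (l 1), sq_nonneg (l Complex.I)]
    have hb : l Complex.I = 0 := by nlinarith [sq_nonneg (l 1), sq_nonneg (l Complex.I)]
    have := hl z0 hz0
    rw [hlin z0, hlin (midpoint ℝ (x i) (x (i + 1))), ha, hb] at this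
    simp at this
  rw [hlin (x (i + 1)), hlin (x i)] at h4
  have key : ∀ m, (l 1 ^ 2 + l Complex.I ^ 2) * cr (x i) (x (i + 1)) (x m) =
      (l 1 * ((x (i + 1)).im - (x i).im) - l Complex.I * ((x (i + 1)).re - (x i).re)) *
        (l (x i) - l (x m)) := by
    intro m
    rw [hlin (x i), hlin (x m)]
    unfold cr
    linear_combination (l 1 * ((x m).im - (x i).im) - l Complex.I * ((x m).re - (x i).re)) * h4
  rcases le_total 0 (l 1 * ((x (i + 1)).im - (x i).im) -
    l Complex.I * ((x (i + 1)).re - (x i).re)) with hs | hs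
  · left
    intro m
    have h5 : 0 ≤ (l 1 ^ 2 + l Complex.I ^ 2) * cr (x i) (x (i + 1)) (x m) := by
      rw [key m]
      exact mul_nonneg hs (sub_nonneg.2 (h3 m))
    exact nonneg_of_mul_nonneg_right h5 hne
  · right
    intro m
    have h5 : (l 1 ^ 2 + l Complex.I ^ 2) * cr (x i) (x (i + 1)) (x m) ≤ 0 := by
      rw [key m]
      exact mul_nonpos_of_nonpos_of_nonneg hs (sub_nonneg.2 (h3 m))
    by_contra hcon
    push Not at hcon
    have := mul_pos hne hcon
    linarith

/-- from the edges to all triples -/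
theorem core {n : ℕ} (y : ℕ → ℂ) (s : ℝ)
    (H : ∀ a b, a + 1 < n → b < n → b ≠ a → b ≠ a + 1 → 0 < s * cr (y a) (y (a + 1)) (y b))
    (i j k : ℕ) (hij : i < j) (hjk : j < k) (hk : k < n) :
    0 < s * cr (y i) (y j) (y k) := by
  induction k, hjk using Nat.le_induction with
  | base =>
    have h := H j i hk (by omega) (by omega) (by omega)
    have h1 : cr (y i) (y j) (y (j + 1)) = cr (y j) (y (j + 1)) (y i) := by
      unfold cr
      ring
    rw [h1]
    exact h
  | succ k hjk ih =>
    have ih := ih (by omega)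
    have hjk' : j < k := hjk
    rcases Nat.eq_or_lt_of_le (show i + 1 ≤ j from hij) with h | h
    · rw [← h]
      exact H i (k + 1) (by omega) hk (by omega) (by omega)
    · have e1 := H i j (by omega) (by omega) (by omega) (by omega)
      have e2 := H i k (by omega) (by omega) (by omega) (by omega)
      have e3 := H i (k + 1) (by omega) (by omega) (by omega) (by omega)
      have e4 := H k i (by omega) (by omega) (by omega) (by omega)
      have e5 : 0 < (s * cr (y i) (y j) (y (k + 1))) * (s * cr (y i) (y (i + 1)) (y k)) := by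
        have e6 : (s * cr (y i) (y j) (y (k + 1))) * (s * cr (y i) (y (i + 1)) (y k)) =
            (s * cr (y i) (y (i + 1)) (y j)) * (s * cr (y k) (y (k + 1)) (y i)) +
            (s * cr (y i) (y (i + 1)) (y (k + 1))) * (s * cr (y i) (y j) (y k)) := by
          unfold cr
          ring
        rw [e6]
        exact add_pos (mul_pos e1 e4) (mul_pos e3 ih)
      exact (mul_pos_iff_of_pos_right e2).1 e5

theorem pgb : S_PGB := by
  intro n _ x hn hne hconv
  have hne' : ∀ i j k : Fin n, i ≠ j → j ≠ k → i ≠ k → cr (x i) (x j) (x k) ≠ 0 := by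
    have sw1 : ∀ a b c : ℂ, cr a b c = -cr b a c := by
      intro a b c
      unfold cr
      ring
    have sw2 : ∀ a b c : ℂ, cr a b c = -cr a c b := by
      intro a b c
      unfold cr
      ring
    intro i j k hij hjk hik h
    rcases lt_or_gt_of_ne hij with h1 | h1 <;> rcases lt_or_gt_of_ne hjk with h2 | h2 <;>
      rcases lt_or_gt_of_ne hik with h3 | h3
    · exact hne i j k h1 h2 h
    · exact absurd (h1.trans h2) (not_lt.2 h3.le)
    · exact hne i k j h3 h2 (by rw [sw2, h, neg_zero])
    · exact hne k i j h3 h1 (by rw [sw1, sw2, h]; simp)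
    · exact hne j i k h1 h3 (by rw [sw1, h, neg_zero])
    · exact hne j k i h2 h3 (by rw [sw2, sw1, h]; simp)
    · exact absurd (h2.trans h1) (not_lt.2 h3.le)
    · exact hne k j i h2 h1 (by rw [sw1, sw2, sw1, h]; simp)
  set y : ℕ → ℂ := fun a ↦ if h : a < n then x ⟨a, h⟩ else 0 with hy
  have hyv : ∀ i : Fin n, y i = x i := by
    intro i
    simp [hy]
  have hsucc : ∀ a (ha : a + 1 < n), (⟨a, by omega⟩ : Fin n) + 1 = ⟨a + 1, ha⟩ := by
    intro a ha
    apply Fin.ext
    rw [Fin.val_add, Fin.val_one']
    simp only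
    rw [Nat.add_mod_mod]
    exact Nat.mod_eq_of_lt ha
  have hside : ∀ a (ha : a + 1 < n), (∀ b, b < n → 0 ≤ cr (y a) (y (a + 1)) (y b)) ∨
      ∀ b, b < n → cr (y a) (y (a + 1)) (y b) ≤ 0 := by
    intro a ha
    have h := side x hconv ⟨a, by omega⟩
    rw [hsucc a ha] at h
    have e1 : y a = x ⟨a, by omega⟩ := hyv ⟨a, by omega⟩
    have e2 : y (a + 1) = x ⟨a + 1, ha⟩ := hyv ⟨a + 1, ha⟩
    rw [e1, e2]
    rcases h with h | h
    · left
      intro b hb
      have := h ⟨b, hb⟩
      rwa [← hyv ⟨b, hb⟩] at this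
    · right
      intro b hb
      have := h ⟨b, hb⟩
      rwa [← hyv ⟨b, hb⟩] at this
  have hyne : ∀ a b c, a < n → b < n → c < n → a ≠ b → b ≠ c → a ≠ c →
      cr (y a) (y b) (y c) ≠ 0 := by
    intro a b c ha hb hc h1 h2 h3
    have := hne' ⟨a, ha⟩ ⟨b, hb⟩ ⟨c, hc⟩ (by simpa using h1) (by simpa using h2) (by simpa using h3)
    rwa [← hyv ⟨a, ha⟩, ← hyv ⟨b, hb⟩, ← hyv ⟨c, hc⟩] at this
  have cyc : ∀ a b c : ℂ, cr a b c = cr b c a := by
    intro a b c
    unfold cr
    ring
  have hfin : ∀ s : ℝ, (∀ i j k : ℕ, i < j → j < k → k < n → 0 < s * cr (y i) (y j) (y k)) →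
      ∀ i j k : Fin n, i < j → j < k → 0 < s * cr (x i) (x j) (x k) := by
    intro s h i j k h1 h2
    have := h i j k h1 h2 k.2
    rwa [hyv, hyv, hyv] at this
  rcases hside 0 (by omega) with h0 | h0
  · left
    have hall : ∀ a, a + 1 < n → ∀ b, b < n → 0 ≤ cr (y a) (y (a + 1)) (y b) := by
      intro a
      induction a with
      | zero => exact fun _ ↦ h0
      | succ a ih =>
        intro ha
        rcases hside (a + 1) ha with h | h
        · exact h
        · exfalso
          have h1 := ih (by omega) (a + 1 + 1) ha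
          have h2 := h a (by omega)
          rw [cyc] at h1
          exact hyne (a + 1) (a + 1 + 1) a (by omega) (by omega) (by omega) (by omega) (by omega)
            (by omega) (le_antisymm h2 h1)
    have hc := hfin 1 (core y 1 (fun a b ha hb h1 h2 ↦ by
      rw [one_mul]
      exact lt_of_le_of_ne (hall a ha b hb)
        (hyne a (a + 1) b (by omega) ha hb (by omega) (by omega) (by omega)).symm))
    intro i j k h1 h2
    have := hc i j k h1 h2
    rwa [one_mul] at this
  · right
    have hall : ∀ a, a + 1 < n → ∀ b, b < n → cr (y a) (y (a + 1)) (y b) ≤ 0 := by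
      intro a
      induction a with
      | zero => exact fun _ ↦ h0
      | succ a ih =>
        intro ha
        rcases hside (a + 1) ha with h | h
        · exfalso
          have h1 := ih (by omega) (a + 1 + 1) ha
          have h2 := h a (by omega)
          rw [cyc] at h1
          exact hyne (a + 1) (a + 1 + 1) a (by omega) (by omega) (by omega) (by omega) (by omega)
            (by omega) (le_antisymm h1 h2)
        · exact h
    have hc := hfin (-1) (core y (-1) (fun a b ha hb h1 h2 ↦ by
      have := lt_of_le_of_ne (hall a ha b hb)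
        (hyne a (a + 1) b (by omega) ha hb (by omega) (by omega) (by omega))
      linarith))
    intro i j k h1 h2
    have := hc i j k h1 h2
    linarith

end Pool.Agent.Helper83.DISC.PGB
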