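import Pool.Agent.Helper98.DISC.GoalsB

/-!
# Packet DISC RAD: the radius of the contour does not matter; derivative in `φ`
-/

open MeasureTheory Set Filter Topology

noncomputable section

namespace Pool.Agent.Helper83.DISC.RAD

open Pool.Agent.Helper98.DISC

theorem circ_eq {r ρ ρ' : ℝ} {f : ℂ → ℂ} (hr : 0 ≤ r)
    (hf : ∀ z : ℂ, r < ‖z‖ → DifferentiableAt ℂ f z) (h1 : r < ρ) (h2 : ρ ≤ ρ') :
    (∮ z in C(0, ρ'), f z) = ∮ z in C(0, ρ), f z := by
  refine Complex.circleIntegral_eq_of_differentiable_on_annulus_off_countable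
    (lt_of_le_of_lt hr h1) h2 countable_empty ?_ ?_
  · intro z hz
    refine (hf z ?_).continuousAt.continuousWithinAt
    have : ¬ ‖z‖ < ρ := by
      intro h
      exact hz.2 (by simpa using h)
    linarith
  · intro z hz
    refine hf z ?_
    have : ¬ ‖z‖ ≤ ρ := by
      intro h
      exact hz.1.2 (by simpa using h)
    linarith

theorem circ_eq' {r ρ ρ' : ℝ} {f : ℂ → ℂ} (hr : 0 ≤ r)
    (hf : ∀ z : ℂ, r < ‖z‖ → DifferentiableAt ℂ f z) (h1 : r < ρ) (h2 : r < ρ') :
    (∮ z in C(0, ρ), f z) = ∮ z in C(0, ρ'), f z := by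
  rcases le_total ρ ρ' with h | h
  · exact (circ_eq hr hf h1 h).symm
  · exact circ_eq hr hf h2 h

theorem rad : S_RAD := by
  intro r ρ ρ' φ f hf hρ hρ'
  obtain ⟨hr, hd, -⟩ := hf
  constructor
  · unfold Cc
    congr 1
    refine circ_eq' hr (fun z hz ↦ ?_) hρ hρ'
    exact (hd z hz).mul (by fun_prop)
  · have hρ0 : 0 < ρ := lt_of_le_of_lt hr hρ
    unfold Cc
    have hmain : HasDerivAt (fun φ : ℝ ↦ ∮ z in C(0, ρ), f z * Complex.exp (2 * Complex.I * z * φ))
        (∮ z in C(0, ρ), 2 * Complex.I * z * f z * Complex.exp (2 * Complex.I * z * φ)) φ := by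
      have hcf : Continuous fun θ : ℝ ↦ f (circleMap 0 ρ θ) := by
        rw [continuous_iff_continuousAt]
        intro θ
        have h1 : ContinuousAt f (circleMap 0 ρ θ) := by
          refine (hd _ ?_).continuousAt
          rw [norm_circleMap_zero, abs_of_pos hρ0]
          exact hρ
        exact ContinuousAt.comp (f := circleMap 0 ρ) h1 (continuous_circleMap 0 ρ).continuousAt
      have hcm : Continuous (circleMap 0 ρ) := continuous_circleMap 0 ρ
      have hcd : Continuous (deriv (circleMap 0 ρ)) := by
        have : deriv (circleMap 0 ρ) = fun θ ↦ circleMap 0 ρ θ * Complex.I := by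
          funext θ
          exact deriv_circleMap 0 ρ θ
        rw [this]
        fun_prop
      have hexp : ∀ x : ℝ, Continuous fun θ : ℝ ↦
          Complex.exp (2 * Complex.I * circleMap 0 ρ θ * (x : ℂ)) := by
        intro x
        exact Complex.continuous_exp.comp ((continuous_const.mul hcm).mul continuous_const)
      unfold circleIntegral
      have key := intervalIntegral.hasDerivAt_integral_of_dominated_loc_of_deriv_le
        (μ := volume) (a := 0) (b := 2 * Real.pi) (x₀ := φ) (s := Metric.ball φ 1)
        (F := fun (x : ℝ) (θ : ℝ) ↦ deriv (circleMap 0 ρ) θ •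
          (f (circleMap 0 ρ θ) * Complex.exp (2 * Complex.I * circleMap 0 ρ θ * x)))
        (F' := fun (x : ℝ) (θ : ℝ) ↦ deriv (circleMap 0 ρ) θ •
          (2 * Complex.I * circleMap 0 ρ θ * f (circleMap 0 ρ θ) *
            Complex.exp (2 * Complex.I * circleMap 0 ρ θ * x)))
        (bound := fun θ ↦ ‖deriv (circleMap 0 ρ) θ‖ * (2 * ρ * ‖f (circleMap 0 ρ θ)‖ *
          Real.exp (2 * ρ * (|φ| + 1))))
        (Metric.ball_mem_nhds φ one_pos) ?_ ?_ ?_ ?_ ?_ ?_
      · exact key.2
      · refine Filter.Eventually.of_forall fun x ↦ ?_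
        refine Continuous.aestronglyMeasurable ?_
        exact hcd.smul (hcf.mul (hexp x))
      · refine Continuous.intervalIntegrable ?_ _ _
        exact hcd.smul (hcf.mul (hexp φ))
      · refine Continuous.aestronglyMeasurable ?_
        exact hcd.smul (((continuous_const.mul hcm).mul hcf).mul (hexp φ))
      · refine Filter.Eventually.of_forall fun θ _ x hx ↦ ?_
        rw [norm_smul]
        refine mul_le_mul_of_nonneg_left ?_ (norm_nonneg _)
        rw [norm_mul, norm_mul, norm_mul, norm_mul, Complex.norm_I, Complex.norm_ofNat,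
          norm_circleMap_zero, abs_of_pos hρ0, mul_one]
        refine mul_le_mul_of_nonneg_left ?_ (by positivity)
        refine (Complex.norm_exp_le_exp_norm _).trans ?_
        refine Real.exp_le_exp.2 ?_
        rw [norm_mul, norm_mul, norm_mul, Complex.norm_I, Complex.norm_ofNat,
          norm_circleMap_zero, abs_of_pos hρ0, mul_one, Complex.norm_real, Real.norm_eq_abs]
        refine mul_le_mul_of_nonneg_left ?_ (by positivity)
        have h1 : |x - φ| < 1 := by
          rw [← Real.dist_eq]
          exact hx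
        have h2 : |x| ≤ |x - φ| + |φ| := by
          calc |x| = |(x - φ) + φ| := by ring_nf
            _ ≤ _ := abs_add_le _ _
        linarith
      · refine Continuous.intervalIntegrable ?_ _ _
        exact hcd.norm.mul ((continuous_const.mul hcf.norm).mul continuous_const)
      · refine Filter.Eventually.of_forall fun θ _ x _ ↦ ?_
        simp only [smul_eq_mul]
        refine HasDerivAt.const_mul _ ?_
        have h1 : HasDerivAt (fun x : ℝ ↦ 2 * Complex.I * circleMap 0 ρ θ * (x : ℂ))
            (2 * Complex.I * circleMap 0 ρ θ * 1) x :=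
          (HasDerivAt.ofReal_comp (hasDerivAt_id x)).const_mul _
        have h2 := (h1.cexp).const_mul (f (circleMap 0 ρ θ))
        convert h2 using 1
        ring
    exact hmain.const_mul _

end Pool.Agent.Helper83.DISC.RAD
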