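import Pool.Agent.Helper98.DISC.GoalsD

/-!
# Packet DISC UN3: the polygons in the disc whose outermost vertex is the first one
-/

open MeasureTheory Set Filter Topology
open scoped ENNReal

noncomputable section

namespace Pool.Agent.Helper83.DISC.UN3

open Pool.Agent.Helper98.DISC

/-- the part of `CS` in which the vertex `j` is the outermost one -/
def DD (m : ℕ) (j : Fin (m + 1)) : Set (Fin (m + 1) → ℂ) :=
  {z | z ∈ CS (m + 1) ∧ ∀ i, i ≠ j → ‖z i‖ < ‖z j‖}

theorem pos3_rot {m : ℕ} (z : Fin (m + 1) → ℂ) (j : Fin (m + 1)) (h : Pos3 z) :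
    Pos3 fun i => z (i + j) := by
  intro a b c hab hbc
  have cyc : ∀ a b c : ℂ, cr a b c = cr b c a := by
    intro a b c
    unfold cr
    ring
  have ha := Fin.val_add_eq_ite a j
  have hb := Fin.val_add_eq_ite b j
  have hc := Fin.val_add_eq_ite c j
  have hab' : a.val < b.val := hab
  have hbc' : b.val < c.val := hbc
  have h1 := a.2
  have h2 := b.2
  have h3 := c.2
  have h4 := j.2
  change 0 < cr (z (a + j)) (z (b + j)) (z (c + j))
  by_cases hA : m + 1 ≤ a.val + j.val
  · refine h _ _ _ ?_ ?_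
    · rw [Fin.lt_def, ha, hb, if_pos hA, if_pos (by omega)]
      omega
    · rw [Fin.lt_def, hb, hc, if_pos (by omega), if_pos (by omega)]
      omega
  · rw [if_neg hA] at ha
    by_cases hB : m + 1 ≤ b.val + j.val
    · rw [if_pos hB] at hb
      rw [if_pos (by omega)] at hc
      rw [cyc]
      refine h _ _ _ ?_ ?_
      · rw [Fin.lt_def]
        omega
      · rw [Fin.lt_def]
        omega
    · rw [if_neg hB] at hb
      by_cases hC : m + 1 ≤ c.val + j.val
      · rw [if_pos hC] at hc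
        rw [cyc, cyc]
        refine h _ _ _ ?_ ?_
        · rw [Fin.lt_def]
          omega
        · rw [Fin.lt_def]
          omega
      · rw [if_neg hC] at hc
        refine h _ _ _ ?_ ?_
        · rw [Fin.lt_def]
          omega
        · rw [Fin.lt_def]
          omega

theorem pos3_rot_iff {m : ℕ} (z : Fin (m + 1) → ℂ) (j : Fin (m + 1)) :
    Pos3 (fun i => z (i + j)) ↔ Pos3 z := by
  refine ⟨fun h ↦ ?_, pos3_rot z j⟩
  have h1 := pos3_rot _ (-j) h
  have h2 : (fun i : Fin (m + 1) => z (i + -j + j)) = z := by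
    funext i
    rw [neg_add_cancel_right]
  rwa [h2] at h1

theorem continuous_cr {X : Type*} [TopologicalSpace X] {a b c : X → ℂ} (ha : Continuous a)
    (hb : Continuous b) (hc : Continuous c) : Continuous fun x => cr (a x) (b x) (c x) := by
  unfold cr
  exact (((Complex.continuous_re.comp hb).sub (Complex.continuous_re.comp ha)).mul
    ((Complex.continuous_im.comp hc).sub (Complex.continuous_im.comp ha))).sub
    (((Complex.continuous_im.comp hb).sub (Complex.continuous_im.comp ha)).mul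
    ((Complex.continuous_re.comp hc).sub (Complex.continuous_re.comp ha)))

theorem isOpen_CS (n : ℕ) : IsOpen (CS n) := by
  have h : CS n = (⋂ i : Fin n, ⋂ j : Fin n, ⋂ k : Fin n, ⋂ _ : i < j, ⋂ _ : j < k,
      {z : Fin n → ℂ | 0 < cr (z i) (z j) (z k)}) ∩ ⋂ i : Fin n, {z : Fin n → ℂ | ‖z i‖ < 1} := by
    ext z
    simp [CS, Pos3]
  rw [h]
  refine IsOpen.inter ?_ ?_
  · refine isOpen_iInter_of_finite fun i ↦ isOpen_iInter_of_finite fun j ↦
      isOpen_iInter_of_finite fun k ↦ isOpen_iInter_of_finite fun _ ↦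
      isOpen_iInter_of_finite fun _ ↦ ?_
    exact isOpen_lt continuous_const
      (continuous_cr (continuous_apply i) (continuous_apply j) (continuous_apply k))
  · refine isOpen_iInter_of_finite fun i ↦ ?_
    exact isOpen_lt (continuous_apply i).norm continuous_const

theorem isOpen_DD (m : ℕ) (j : Fin (m + 1)) : IsOpen (DD m j) := by
  have h : DD m j = CS (m + 1) ∩ ⋂ i : Fin (m + 1), ⋂ _ : i ≠ j,
      {z : Fin (m + 1) → ℂ | ‖z i‖ < ‖z j‖} := by
    ext z
    simp [DD]
  rw [h]
  refine (isOpen_CS _).inter (isOpen_iInter_of_finite fun i ↦ isOpen_iInter_of_finite fun _ ↦ ?_)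
  exact isOpen_lt (continuous_apply i).norm (continuous_apply j).norm

theorem vol_DD (m : ℕ) (j : Fin (m + 1)) : volume (DD m j) = volume (DD m 0) := by
  have hmp := volume_measurePreserving_piCongrLeft (fun _ : Fin (m + 1) => ℂ) (Equiv.addRight j)
  rw [← hmp.measure_preimage_equiv (DD m j)]
  congr 1
  ext z
  rw [mem_preimage]
  set z' : Fin (m + 1) → ℂ :=
    (MeasurableEquiv.piCongrLeft (fun _ : Fin (m + 1) => ℂ) (Equiv.addRight j)) z with hz'
  have hz : z = fun i => z' (i + j) := by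
    funext i
    exact (Equiv.piCongrLeft_apply_apply (fun _ : Fin (m + 1) => ℂ) (Equiv.addRight j) z i).symm
  rw [hz]
  simp only [DD, CS, mem_setOf_eq, pos3_rot_iff]
  constructor
  · rintro ⟨⟨h1, h2⟩, h3⟩
    refine ⟨⟨h1, fun i ↦ h2 _⟩, fun i hi ↦ ?_⟩
    rw [zero_add]
    refine h3 _ fun h ↦ hi ?_
    exact add_eq_right.1 h
  · rintro ⟨⟨h1, h2⟩, h3⟩
    refine ⟨⟨h1, fun i ↦ ?_⟩, fun i hi ↦ ?_⟩
    · have := h2 (i + -j)
      rwa [neg_add_cancel_right] at this
    · have := h3 (i + -j) (fun h ↦ hi (by rw [← sub_eq_add_neg, sub_eq_zero] at h; exact h))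
      rwa [neg_add_cancel_right, zero_add] at this

theorem un3 (hnul : S_NUL) : S_UN3 := by
  classical
  intro m
  have hN : ∀ i j : Fin (m + 1), i ≠ j →
      volume {z : Fin (m + 1) → ℂ | ‖z i‖ = ‖z j‖} = 0 := by
    intro i j hij
    refine hnul (Fin (m + 1)) i _ ?_ fun z ↦ ?_
    · exact (isClosed_eq (continuous_apply i).norm (continuous_apply j).norm).measurableSet
    · have h : {t : ℂ | Function.update z i t ∈ {z : Fin (m + 1) → ℂ | ‖z i‖ = ‖z j‖}} =
          Metric.sphere (0 : ℂ) ‖z j‖ := by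
        ext t
        rw [mem_setOf_eq, mem_setOf_eq, Function.update_self, Function.update_of_ne hij.symm,
          mem_sphere_zero_iff_norm]
      rw [h]
      exact Measure.addHaar_sphere volume _ _
  have hdisj : Pairwise (Function.onFun Disjoint (DD m)) := by
    intro i j hij
    refine Set.disjoint_left.2 fun z h1 h2 ↦ ?_
    have := h1.2 j hij.symm
    have := h2.2 i hij
    linarith
  have hsum : volume (⋃ j, DD m j) = ∑ j, volume (DD m j) := by
    rw [measure_iUnion hdisj fun j ↦ (isOpen_DD m j).measurableSet, tsum_fintype]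
  have hunion : volume (CS (m + 1)) = volume (⋃ j, DD m j) := by
    refine le_antisymm ?_ (measure_mono (iUnion_subset fun j z hz ↦ hz.1))
    have hsub : CS (m + 1) ⊆ (⋃ j, DD m j) ∪ ⋃ i : Fin (m + 1), ⋃ j : Fin (m + 1), ⋃ _ : i ≠ j,
        {z : Fin (m + 1) → ℂ | ‖z i‖ = ‖z j‖} := by
      intro z hz
      obtain ⟨j, hj⟩ := Finite.exists_max fun i : Fin (m + 1) ↦ ‖z i‖
      by_cases h : ∀ i, i ≠ j → ‖z i‖ < ‖z j‖
      · exact Or.inl (mem_iUnion.2 ⟨j, hz, h⟩)
      · push Not at h
        obtain ⟨i, hi, h⟩ := h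
        exact Or.inr (mem_iUnion.2 ⟨i, mem_iUnion.2 ⟨j, mem_iUnion.2 ⟨hi, le_antisymm (hj i) h⟩⟩⟩)
    refine (measure_mono hsub).trans ((measure_union_le _ _).trans ?_)
    have h0 : volume (⋃ i : Fin (m + 1), ⋃ j : Fin (m + 1), ⋃ _ : i ≠ j,
        {z : Fin (m + 1) → ℂ | ‖z i‖ = ‖z j‖}) = 0 := by
      refine measure_iUnion_null fun i ↦ measure_iUnion_null fun j ↦
        measure_iUnion_null fun hij ↦ hN i j hij
    rw [h0, add_zero]
  rw [hunion, hsum, Finset.sum_congr rfl fun j _ ↦ vol_DD m j, Finset.sum_const,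
    Finset.card_univ, Fintype.card_fin, nsmul_eq_mul]
  push_cast
  rfl

end Pool.Agent.Helper83.DISC.UN3
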