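import Pool.Agent.Helper98.DISC.GoalsD
import Pool.Agent.Helper83.DISC.UN3

/-!
# Packet DISC SP3: Fubini for the outermost vertex
-/

open MeasureTheory Set Filter Topology
open scoped ENNReal

noncomputable section

namespace Pool.Agent.Helper83.DISC.SP3

open Pool.Agent.Helper98.DISC Pool.Agent.Helper83.DISC.UN3

theorem pos3_iff {m : ℕ} (z : Fin (m + 1) → ℂ) : Pos3 z ↔ Pfr (z 0) fun i : Fin m => z i.succ := by
  constructor
  · intro h
    exact ⟨fun i j hij ↦ h 0 i.succ j.succ (Fin.succ_pos i) (Fin.succ_lt_succ_iff.2 hij),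
      fun i j k hij hjk ↦ h _ _ _ (Fin.succ_lt_succ_iff.2 hij) (Fin.succ_lt_succ_iff.2 hjk)⟩
  · intro h i j k hij hjk
    obtain ⟨j, rfl⟩ := Fin.exists_succ_eq.2 (Fin.ne_zero_of_lt hij)
    obtain ⟨k, rfl⟩ := Fin.exists_succ_eq.2 (Fin.ne_zero_of_lt hjk)
    rcases Fin.eq_zero_or_eq_succ i with rfl | ⟨i, rfl⟩
    · exact h.a2 j k (Fin.succ_lt_succ_iff.1 hjk)
    · exact h.p3 i j k (Fin.succ_lt_succ_iff.1 hij) (Fin.succ_lt_succ_iff.1 hjk)

theorem sp3 : S_SP3 := by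
  intro m
  set B : Set (ℂ × (Fin m → ℂ)) := {p | ‖p.1‖ < 1 ∧ Pfr p.1 p.2 ∧ ∀ i, ‖p.2 i‖ < ‖p.1‖} with hB
  have hBo : IsOpen B := by
    have h : B = {p : ℂ × (Fin m → ℂ) | ‖p.1‖ < 1} ∩
        ((⋂ i : Fin m, ⋂ j : Fin m, ⋂ _ : i < j,
          {p : ℂ × (Fin m → ℂ) | 0 < cr p.1 (p.2 i) (p.2 j)}) ∩
        ((⋂ i : Fin m, ⋂ j : Fin m, ⋂ k : Fin m, ⋂ _ : i < j, ⋂ _ : j < k,
          {p : ℂ × (Fin m → ℂ) | 0 < cr (p.2 i) (p.2 j) (p.2 k)}) ∩
        ⋂ i : Fin m, {p : ℂ × (Fin m → ℂ) | ‖p.2 i‖ < ‖p.1‖})) := by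
      ext p
      simp only [hB, mem_inter_iff, mem_iInter]
      constructor
      · rintro ⟨h1, ⟨h2, h3⟩, h4⟩
        exact ⟨h1, h2, fun i j k a b ↦ h3 i j k a b, h4⟩
      · rintro ⟨h1, h2, h3, h4⟩
        exact ⟨h1, ⟨h2, fun i j k a b ↦ h3 i j k a b⟩, h4⟩
    have hp : ∀ i : Fin m, Continuous fun p : ℂ × (Fin m → ℂ) ↦ p.2 i := fun i ↦
      (continuous_apply i).comp continuous_snd
    rw [h]
    refine IsOpen.inter (isOpen_lt continuous_fst.norm continuous_const) (IsOpen.inter ?_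
      (IsOpen.inter ?_ ?_))
    · refine isOpen_iInter_of_finite fun i ↦ isOpen_iInter_of_finite fun j ↦
        isOpen_iInter_of_finite fun _ ↦ ?_
      exact isOpen_lt continuous_const (continuous_cr continuous_fst (hp i) (hp j))
    · refine isOpen_iInter_of_finite fun i ↦ isOpen_iInter_of_finite fun j ↦
        isOpen_iInter_of_finite fun k ↦ isOpen_iInter_of_finite fun _ ↦
        isOpen_iInter_of_finite fun _ ↦ ?_
      exact isOpen_lt continuous_const (continuous_cr (hp i) (hp j) (hp k))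
    · exact isOpen_iInter_of_finite fun i ↦ isOpen_lt (hp i).norm continuous_fst.norm
  have hmp := volume_preserving_piFinSuccAbove (fun _ : Fin (m + 1) => ℂ) 0
  have hpre : {z : Fin (m + 1) → ℂ | z ∈ CS (m + 1) ∧ ∀ i, i ≠ 0 → ‖z i‖ < ‖z 0‖} =
      (MeasurableEquiv.piFinSuccAbove (fun _ : Fin (m + 1) => ℂ) 0) ⁻¹' B := by
    ext z
    change (Pos3 z ∧ ∀ i, ‖z i‖ < 1) ∧ (∀ i, i ≠ 0 → ‖z i‖ < ‖z 0‖) ↔
      ‖z 0‖ < 1 ∧ Pfr (z 0) (fun i : Fin m => z i.succ) ∧ ∀ i : Fin m, ‖z i.succ‖ < ‖z 0‖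
    rw [pos3_iff]
    constructor
    · rintro ⟨⟨h1, h2⟩, h3⟩
      exact ⟨h2 0, h1, fun i ↦ h3 _ (Fin.succ_ne_zero i)⟩
    · rintro ⟨h1, h2, h3⟩
      have h4 : ∀ i : Fin (m + 1), i ≠ 0 → ‖z i‖ < ‖z 0‖ := by
        intro i hi
        obtain ⟨i, rfl⟩ := Fin.exists_succ_eq.2 hi
        exact h3 i
      refine ⟨⟨h2, fun i ↦ ?_⟩, h4⟩
      by_cases hi : i = 0
      · rw [hi]
        exact h1
      · exact (h4 i hi).trans h1
  rw [hpre, hmp.measure_preimage_equiv, Measure.volume_eq_prod,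
    Measure.prod_apply hBo.measurableSet, ← lintegral_indicator Metric.isOpen_ball.measurableSet]
  refine lintegral_congr fun w ↦ ?_
  by_cases hw : w ∈ Metric.ball (0 : ℂ) 1
  · rw [indicator_of_mem hw]
    have hw' : ‖w‖ < 1 := mem_ball_zero_iff.1 hw
    congr 1
    ext u
    exact ⟨fun h ↦ h.2, fun h ↦ ⟨hw', h⟩⟩
  · rw [indicator_of_notMem hw]
    have hw' : ¬ ‖w‖ < 1 := fun h ↦ hw (mem_ball_zero_iff.2 h)
    have : Prod.mk w ⁻¹' B = ∅ := by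
      ext u
      exact ⟨fun h ↦ hw' h.1, fun h ↦ h.elim⟩
    rw [this]
    exact measure_empty

end Pool.Agent.Helper83.DISC.SP3
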